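import Pool.Agent.Lib.MP_28303a_al.NT.ER91.Base0

/-! # Additive functions on perfect objects and on functors with finite resolutions -/

set_option autoImplicit false
set_option linter.unusedSectionVars false
set_option linter.unusedVariables false

namespace Pool.Agent.NegK.NT.EX91

universe u v

open CategoryTheory Limits Pretriangulated Pool.Agent.NegK.NT.ER ZeroObject

section

variable {k : Type u} [Ring k] {Γ : Type u} [Group Γ] {B : Type u} [MulAction Γ B] {P : Pre Γ B}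
  {C : Type v} [AddCommGroup C]

/-- Functions which are additive on distinguished triangles of perfect objects. -/
def AddF (F : KK k P → C) : Prop :=
  ∀ T ∈ distTriang (KK k P), Per T.obj₁ → Per T.obj₂ → Per T.obj₃ →
    F T.obj₂ = F T.obj₁ + F T.obj₃

variable {F : KK k P → C} (hF : AddF F)
include hF

theorem AddF.zero {X : KK k P} (hX : IsZero X) : F X = 0 := by
  have h1 := hF _ (contractible_distinguished X) (per_zero hX) (per_zero hX)
    (per_zero (isZero_zero _))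
  have h2 : F X = F X + F (0 : KK k P) := h1
  have h3 : F (0 : KK k P) = 0 := by
    have h4 := hF _ (contractible_distinguished (0 : KK k P)) (per_zero (isZero_zero _))
      (per_zero (isZero_zero _)) (per_zero (isZero_zero _))
    have h5 : F (0 : KK k P) = F (0 : KK k P) + F (0 : KK k P) := h4
    exact left_eq_add.1 h5
  have h6 : Triangle.mk (𝟙 X) (𝟙 X) (0 : X ⟶ X⟦(1 : ℤ)⟧) ∈ distTriang (KK k P) := by
    refine isomorphic_distinguished _ (contractible_distinguished X) _ ?_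
    exact Triangle.isoMk _ _ (Iso.refl _) (Iso.refl _) (hX.iso (isZero_zero _))
      (hX.eq_of_src _ _) (hX.eq_of_src _ _) (hX.eq_of_src _ _)
  have h7 : F X = F X + F X := hF _ h6 (per_zero hX) (per_zero hX) (per_zero hX)
  exact left_eq_add.1 h7

theorem AddF.iso {X Y : KK k P} (e : X ≅ Y) (hX : Per X) : F X = F Y := by
  have h1 : Triangle.mk e.hom (0 : Y ⟶ 0) (0 : (0 : KK k P) ⟶ X⟦(1 : ℤ)⟧) ∈
      distTriang (KK k P) := by
    refine isomorphic_distinguished _ (contractible_distinguished X) _ ?_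
    exact Triangle.isoMk _ _ (Iso.refl _) e.symm (Iso.refl _)
      (e.hom_inv_id.trans (Category.id_comp (𝟙 X)).symm) (zero_comp.trans comp_zero.symm)
      (zero_comp.trans comp_zero.symm)
  have h2 := hF _ h1 hX (per_iso e hX) (per_zero (isZero_zero _))
  have h3 : F Y = F X + F (0 : KK k P) := h2
  rw [h3, AddF.zero hF (isZero_zero _), add_zero]

omit hF in
/-- Perfect objects with the same homology in one degree are isomorphic. -/
theorem iso_of_conc {X Y : KK k P} (b : ℤ) (hX : Per X) (hY : Per Y)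
    (hX0 : ∀ n, n ≠ b → IsZero ((hq k P n).obj X)) (hY0 : ∀ n, n ≠ b → IsZero ((hq k P n).obj Y))
    (e : (hq k P b).obj X ≅ (hq k P b).obj Y) : Nonempty (X ≅ Y) := by
  obtain ⟨g, hg⟩ := topS k Γ B P X Y b hX hY (fun m hm => hX0 m (ne_of_gt hm)) hY0 e.hom
  have hgi : IsIso g := by
    refine isoS k Γ B P _ _ g hX hY fun m => ?_
    by_cases hm : m = b
    · subst hm
      rw [hg]
      infer_instance
    · exact isIso_of_zero _ (hX0 m hm) (hY0 m hm)
  exact ⟨asIso g⟩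

omit hF in
variable (F) in
open Classical in
/-- The value of `F` on a functor with a finite resolution. -/
noncomputable def fm (M : Fn k P) : C := if h : Rsl M then F h.choose else 0

theorem fm_eq {M : Fn k P} {R : KK k P} (hR : Per R) (e : (hq k P 0).obj R ≅ M)
    (h0 : ∀ n : ℤ, n ≠ 0 → IsZero ((hq k P n).obj R)) : fm F M = F R := by
  have h : Rsl M := ⟨R, hR, ⟨e⟩, h0⟩
  unfold fm
  rw [dif_pos h]
  obtain ⟨h1, ⟨e'⟩, h2⟩ := h.choose_spec
  obtain ⟨i⟩ := iso_of_conc 0 h1 hR h2 h0 (e' ≪≫ e.symm)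
  exact AddF.iso hF i h1

theorem fm_iso {M N : Fn k P} (e : M ≅ N) (hM : Rsl M) : fm F M = fm F N := by
  obtain ⟨R, hR, ⟨e'⟩, h0⟩ := hM
  rw [fm_eq hF hR e' h0, fm_eq hF hR (e' ≪≫ e) h0]

theorem fm_zero {M : Fn k P} (hM : IsZero M) : fm F M = 0 := by
  have h1 : IsZero (0 : KK k P) := isZero_zero _
  rw [fm_eq hF (per_zero h1) (((hq k P 0).map_isZero h1).iso hM)
    (fun n _ => (hq k P n).map_isZero h1)]
  exact AddF.zero hF h1

/-- Additivity on short exact sequences. -/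
theorem fm_add (S : ShortComplex (Fn k P)) (hS : S.ShortExact) (h1 : Rsl S.X₁) (h2 : Rsl S.X₂) :
    fm F S.X₂ = fm F S.X₁ + fm F S.X₃ := by
  obtain ⟨R₁, p₁, ⟨e₁⟩, z₁⟩ := h1
  obtain ⟨R₂, p₂, ⟨e₂⟩, z₂⟩ := h2
  have _ := hS.mono_f
  have _ := hS.epi_g
  obtain ⟨f, hf⟩ := topS k Γ B P R₁ R₂ 0 p₁ p₂ (fun n hn => z₁ n (by omega)) z₂
    (e₁.hom ≫ S.f ≫ e₂.inv)
  obtain ⟨Z, g, w, hT⟩ := distinguished_cocone_triangle f
  obtain ⟨δ, x2, x3, x1⟩ := H73.hq_les _ hT
  have hmono : Mono ((hq k P 0).map f) := by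
    rw [hf]
    infer_instance
  have hδ : ∀ n : ℤ, n + 1 ≠ 0 → δ n = 0 := fun n hn => (z₁ (n + 1) hn).eq_of_tgt _ _
  have hz : ∀ n : ℤ, n ≠ 0 → IsZero ((hq k P n).obj Z) := by
    intro n hn
    obtain ⟨w3, h3⟩ := x3 n
    refine h3.isZero_X₂ ((z₂ n hn).eq_of_src _ _) ?_
    by_cases hn1 : n + 1 = 0
    · obtain ⟨w1, h1⟩ := x1 n
      have hn2 : n = -1 := by omega
      subst hn2
      have h4 : δ (-1) ≫ (hq k P 0).map f = 0 := w1
      exact (cancel_mono ((hq k P 0).map f)).1 (h4.trans zero_comp.symm)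
    · exact hδ n hn1
  obtain ⟨w2, h2⟩ := x2 0
  obtain ⟨w3, h3⟩ := x3 0
  have hepi : Epi ((hq k P 0).map g) := h3.epi_f_iff.2 (hδ 0 (by omega))
  have hpZ : Per Z := per3 hT p₁ p₂
  have hc := ShortComplex.Exact.gIsCokernel (S := ShortComplex.mk ((hq k P 0).map f)
    ((hq k P 0).map g) w2) h2
  have hc' := hS.gIsCokernel
  have e₃ : (hq k P 0).obj Z ≅ S.X₃ := CokernelCofork.mapIsoOfIsColimit hc hc'
    (Arrow.isoMk e₁ e₂ (by
      change e₁.hom ≫ S.f = (hq k P 0).map f ≫ e₂.hom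
      rw [hf, Category.assoc, Category.assoc, Iso.inv_hom_id, Category.comp_id]))
  rw [fm_eq hF p₁ e₁ z₁, fm_eq hF p₂ e₂ z₂, fm_eq hF hpZ e₃ hz]
  exact hF _ hT p₁ p₂ hpZ

/-- The value on a shift of a perfect object vanishes if the value of the object vanishes. -/
theorem AddF.shift {X : KK k P} (hX : Per X) (n : ℤ) (h : F X = 0) : F (X⟦n⟧) = 0 := by
  have key : ∀ (Y : KK k P), Per Y → F (Y⟦(1 : ℤ)⟧) = - F Y := by
    intro Y hY
    have h1 := hF _ (rot_of_distTriang _ (contractible_distinguished Y)) hY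
      (per_zero (isZero_zero _)) (per_shift hY 1)
    have h2 : F (0 : KK k P) = F Y + F (Y⟦(1 : ℤ)⟧) := h1
    rw [AddF.zero hF (isZero_zero _)] at h2
    exact (neg_eq_of_add_eq_zero_right h2.symm).symm
  have hs : ∀ (m : ℤ), F (X⟦m + 1⟧) = - F (X⟦m⟧) := by
    intro m
    have e : X⟦m + 1⟧ ≅ X⟦m⟧⟦(1 : ℤ)⟧ := (shiftFunctorAdd (KK k P) m 1).app X
    rw [AddF.iso hF e (per_shift hX _), key _ (per_shift hX _)]
  have h0 : F (X⟦(0 : ℤ)⟧) = 0 := by
    rw [AddF.iso hF ((shiftFunctorZero (KK k P) ℤ).app X) (per_shift hX _)]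
    exact h
  induction n using Int.induction_on with
  | zero => exact h0
  | succ i ih => rw [hs, ih, neg_zero]
  | pred i ih =>
    have h3 := hs (-(i : ℤ) - 1)
    rw [sub_add_cancel, ih] at h3
    exact neg_eq_zero.1 h3.symm

/-- Devissage: `F X = 0` if the homology functors of `X` have finite resolutions and value `0`. -/
theorem fm_dev (X : KK k P) (hX : Per X) (hr : ∀ n, Rsl ((hq k P n).obj X))
    (h0 : ∀ n, fm F ((hq k P n).obj X) = 0) : F X = 0 := by
  have key := ER91.dev0 (fun Y : KK k P => Per Y ∧ F Y = 0) (fun Y hY => ⟨per_zero hY,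
    AddF.zero hF hY⟩) ?_ X hX hr ?_
  · exact key.2
  · intro T hT h1 h3
    have h2 : Per T.obj₂ := per2 (f := T.mor₁) (g := T.mor₂) (w := T.mor₃) hT h1.1 h3.1
    refine ⟨h2, ?_⟩
    rw [hF T hT h1.1 h2 h3.1, h1.2, h3.2, add_zero]
  · intro n R hR hRX hR0
    refine ⟨hR, ?_⟩
    obtain ⟨R', hR', ⟨e'⟩, hz'⟩ := hr n
    have h1 : F R' = 0 := by
      rw [← fm_eq hF hR' e' hz']
      exact h0 n
    have h2 : F (R'⟦-n⟧) = 0 := AddF.shift hF hR' (-n) h1
    obtain ⟨e⟩ := hRX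
    obtain ⟨e1⟩ := H91.hq_shift R' (-n) n 0 (by ring)
    have hz : ∀ m, m ≠ n → IsZero ((hq k P m).obj (R'⟦-n⟧)) := by
      intro m hm
      obtain ⟨e2⟩ := H91.hq_shift R' (-n) m (-n + m) rfl
      exact (hz' (-n + m) (by
        intro h
        exact hm (by linarith))).of_iso e2
    obtain ⟨i⟩ := iso_of_conc n hR (per_shift hR' (-n)) hR0 hz (e ≪≫ e'.symm ≪≫ e1.symm)
    rw [AddF.iso hF i hR, h2]

end

end Pool.Agent.NegK.NT.EX91
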