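import Pool.Agent.Lib.MP_28303a_al.NT.EX91.Frs

/-! # The Euler characteristic of perfect objects with respect to a class function -/

set_option autoImplicit false
set_option linter.unusedSectionVars false
set_option linter.unusedVariables false

namespace Pool.Agent.NegK.NT.EX91

universe u v w

open CategoryTheory Limits Pretriangulated Pool.Agent.NegK.NT.ER ZeroObject Idempotents

section

variable {C : Type u} [Category.{v} C] [Preadditive C] [HasZeroObject C] [HasBinaryBiproducts C]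
  {G : Type w} [AddCommGroup G] (F : H65.ClF C G)

open CochainComplex in
/-- The Euler characteristic of a cone. -/
theorem ch_cone {E E' : CochainComplex C ℤ} (hE : ∀ n, F.S (E.X n)) (hE' : ∀ n, F.S (E'.X n))
    (hb : ∃ a b : ℤ, ∀ n, (n < a ∨ b < n) → IsZero (E.X n))
    (hb' : ∃ a b : ℤ, ∀ n, (n < a ∨ b < n) → IsZero (E'.X n)) (f : E ⟶ E') :
    F.ch (mappingCone f) = F.ch E' - F.ch E := by
  obtain ⟨a, b, hab⟩ := hb
  obtain ⟨a', b', hab'⟩ := hb'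
  have e : F.ch (mappingCone f) = ∑ᶠ n : ℤ, ((Int.negOnePow n : ℤ) • F.cl (E.X (n + 1)) +
      (Int.negOnePow n : ℤ) • F.cl (E'.X n)) :=
    finsum_congr fun n => by rw [(F.cone_X f hE hE' n).2, smul_add]
  rw [e, finsum_add_distrib, H65.ClF.finsum_shift (g := fun n => F.cl (E.X n))]
  · exact (neg_add_eq_sub _ _)
  · exact H65.ClF.finite_of_bdd (a := a - 1) (b := b) fun n hn => by
      rw [F.cl_zero (hab (n + 1) (by omega)) (hE _), smul_zero]
  · exact H65.ClF.finite_of_bdd (a := a') (b := b') fun n hn => by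
      rw [F.cl_zero (hab' n hn) (hE' _), smul_zero]

end

section

variable {k : Type u} [Ring k] {Γ : Type u} [Group Γ] {B : Type u} [MulAction Γ B] {P : Pre Γ B}
  {G : Type w} [AddCommGroup G] (F : H65.ClF (KL k P) G)

/-- The quotient functor. -/
noncomputable abbrev qk (k : Type u) [Ring k] {Γ : Type u} [Group Γ] {B : Type u}
    [MulAction Γ B] (P : Pre Γ B) : CochainComplex (KL k P) ℤ ⥤ KKL k P :=
  HomotopyCategory.quotient (KL k P) (ComplexShape.up ℤ)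

open Classical in
/-- The Euler characteristic of a perfect object. -/
noncomputable def eu (X : KK k P) : G :=
  if h : Per X then F.ch (ic k P X h).choose else 0

variable (hS : ∀ Z : KL k P, H65.EF Z → F.S Z)
include hS

theorem eu_eq {X : KK k P} {E : CochainComplex (KL k P) ℤ} (hX : Per X) (hE : FinK E)
    (e : (tk k P).obj X ≅ (qk k P).obj E) : eu F X = F.ch E := by
  unfold eu
  rw [dif_pos hX]
  obtain ⟨h1, ⟨φ⟩⟩ := (ic k P X hX).choose_spec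
  exact F.ch_inv _ E (fun n => hS _ ⟨_, h1.fin n, ⟨Iso.refl _⟩⟩)
    (fun n => hS _ ⟨_, hE.fin n, ⟨Iso.refl _⟩⟩) h1.bdd hE.bdd (φ.symm ≪≫ e)

/-- The Euler characteristic is additive. -/
theorem eu_add : AddF (eu F) := by
  intro T hT h1 h2 h3
  obtain ⟨E₁, hE₁, ⟨φ₁⟩⟩ := ic k P T.obj₁ h1
  obtain ⟨E₂, hE₂, ⟨φ₂⟩⟩ := ic k P T.obj₂ h2
  obtain ⟨E₃, hE₃, ⟨φ₃⟩⟩ := ic k P T.obj₃ h3
  rw [eu_eq F hS h1 hE₁ φ₁, eu_eq F hS h2 hE₂ φ₂, eu_eq F hS h3 hE₃ φ₃]
  obtain ⟨f, hf⟩ : ∃ f : E₁ ⟶ E₂, (qk k P).map f = φ₁.inv ≫ (tk k P).map T.mor₁ ≫ φ₂.hom :=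
    (qk k P).map_surjective _
  have hT' := (tk k P).map_distinguished T hT
  have hC := HomotopyCategory.mappingCone_triangleh_distinguished f
  obtain ⟨e⟩ : Nonempty (((tk k P).mapTriangle.obj T) ≅ CochainComplex.mappingCone.triangleh f) := by
    refine ⟨isoTriangleOfIso₁₂ _ _ hT' hC φ₁ φ₂ ?_⟩
    change (tk k P).map T.mor₁ ≫ φ₂.hom = φ₁.hom ≫ (qk k P).map f
    rw [hf, Iso.hom_inv_id_assoc]
  have e₃ : (tk k P).obj T.obj₃ ≅ (qk k P).obj (CochainComplex.mappingCone f) :=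
    (Triangle.π₃).mapIso e
  have hs₁ : ∀ n, F.S (E₁.X n) := fun n => hS _ ⟨_, hE₁.fin n, ⟨Iso.refl _⟩⟩
  have hs₂ : ∀ n, F.S (E₂.X n) := fun n => hS _ ⟨_, hE₂.fin n, ⟨Iso.refl _⟩⟩
  have hs₃ : ∀ n, F.S (E₃.X n) := fun n => hS _ ⟨_, hE₃.fin n, ⟨Iso.refl _⟩⟩
  have hb : ∃ a b : ℤ, ∀ n, (n < a ∨ b < n) → IsZero ((CochainComplex.mappingCone f).X n) := by
    obtain ⟨a, b, hab⟩ := hE₁.bdd
    obtain ⟨a', b', hab'⟩ := hE₂.bdd
    refine ⟨min (a - 1) a', max b b', fun n hn => ?_⟩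
    rw [CochainComplex.mappingCone.isZero_X_iff]
    exact ⟨hab _ (by omega), hab' _ (by omega)⟩
  have h4 := F.ch_inv E₃ (CochainComplex.mappingCone f) hs₃
    (fun n => (F.cone_X f hs₁ hs₂ n).1) hE₃.bdd hb (φ₃.symm ≪≫ e₃)
  rw [h4, ch_cone F hs₁ hs₂ hE₁.bdd hE₂.bdd f, add_sub_cancel]

omit hS in
variable (k P) in
/-- EUX. -/
theorem eux {G : Type w} [AddCommGroup G] (F : H65.ClF (KL k P) G)
    (hS : ∀ Z : KL k P, H65.EF Z → F.S Z) :
    ∃ χ : KK k P → G, AddF χ ∧ (∀ X Y : KK k P, Nonempty (X ≅ Y) → Per X → χ X = χ Y) ∧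
      ∀ (X : KK k P) (E : CochainComplex (KL k P) ℤ), Per X → FinK E →
        Nonempty ((tk k P).obj X ≅ (qk k P).obj E) → χ X = F.ch E :=
  ⟨eu F, eu_add F hS, fun X Y ⟨e⟩ hX => AddF.iso (eu_add F hS) e hX,
    fun X E hX hE ⟨e⟩ => eu_eq F hS hX hE e⟩

end

end Pool.Agent.NegK.NT.EX91
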