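import Pool.Agent.Lib.MP_28303a_al.NT.ER.Defs

/-! # Exactness of the pull back and of the direct image -/

set_option autoImplicit false
set_option linter.unusedSectionVars false
set_option linter.unusedVariables false

namespace Pool.Agent.NegK.NT.EX91

universe u v w

open CategoryTheory Limits Pretriangulated Pool.Agent.NegK.NT.ER Opposite

section

variable {k : Type u} [Ring k] {Γ : Type u} [Group Γ] {B C : Type u} [MulAction Γ B]
  [MulAction Γ C] {P : Pre Γ B} {Q : Pre Γ C}

instance pb_add (m : Loc.Mono Q P) : (pb k m).Additive where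
  map_add := rfl

instance pb_hom (m : Loc.Mono Q P) : (pb k m).PreservesHomology := by
  have h1 : PreservesFiniteLimits (pb k m) :=
    ⟨fun J _ _ => whiskeringLeft_preservesLimitsOfShape J _⟩
  have h2 : PreservesFiniteColimits (pb k m) :=
    ⟨fun J _ _ => whiskeringLeft_preservesColimitsOfShape J _⟩
  have h := (Functor.exact_tfae (pb k m)).out 3 2 rfl rfl
  exact h.1 ⟨h1, h2⟩

instance yy_add (q : Dfib Q P) : (yy (k := k) q).Additive where
  map_add {N N' f g} := by
    refine NatTrans.ext (funext fun U => ModuleCat.hom_ext (y_ext q N fun c x => ?_))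
    show yL q (f + g) U.unop.pt (yl q N c x) =
      yL q f U.unop.pt (yl q N c x) + yL q g U.unop.pt (yl q N c x)
    rw [yL_yl, yL_yl, yL_yl, ← map_add]
    rfl

theorem yy_hom (hYs : YsStatement.{u}) (q : Dfib Q P) : (yy (k := k) q).PreservesHomology := by
  have h := (Functor.exact_tfae (yy (k := k) q)).out 0 2 rfl rfl
  refine h.1 fun S hS => ?_
  obtain ⟨w, h⟩ := (hYs k Γ B C P Q q).1 S hS
  exact h

end

end Pool.Agent.NegK.NT.EX91
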