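import Pool.Agent.Lib.MP_28303a_al.NT.EX91.Frs
import Pool.Agent.Lib.MP_28303a_al.NT.ER53.Ind

/-! # Additive functions vanish on the objects without homology after forgetting the location -/

set_option autoImplicit false
set_option linter.unusedSectionVars false
set_option linter.unusedVariables false

namespace Pool.Agent.NegK.NT.EX91

universe u v

open CategoryTheory Limits Pretriangulated Pool.Agent.NegK.NT.ER ZeroObject
open Pool.Agent.NegK.NT.H15

section

variable {Γ : Type u} [Group Γ] {T : Sys Γ}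

/-- The lifts for the pairs with `j ∈ J`. -/
theorem lift_j {j : Fin T.m} (hE : ∀ J : Finset (Fin T.m), j ∈ J → T.EXT Finset.univ J)
    (S J : Finset (Fin T.m)) (i : Fin T.m) (hJ : J ⊆ S) (hj : j ∈ J) (hi : i ∉ S) :
    T.LIFT S J i :=
  stepB T S J i hJ hi (ER53.ext_all (stepB T) hE _ _ _ rfl (Finset.insert_subset_insert i hJ)
    (Finset.mem_insert_of_mem hj))

/-- Lifts in several directions. -/
theorem lift_sup {j : Fin T.m} (hE : ∀ J : Finset (Fin T.m), j ∈ J → T.EXT Finset.univ J)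
    (k : Type u) [Ring k] (hk : RegularRing k) (S J : Finset (Fin T.m)) (hJ : J ⊆ S)
    (hj : j ∈ J) (X : KK k (T.P S)) (hX : T.PJ S J k X) (A : Finset (Fin T.m)) :
    ∀ (S' : Finset (Fin T.m)) (h : S ⊆ S'), S' = S ∪ A →
      ∃ Y : KK k (T.P S'), T.PJ S' J k Y ∧ Nonempty ((T.L k h).obj Y ≅ X) := by
  induction A using Finset.induction_on with
  | empty =>
    intro S' h hS
    have h1 : S' = S := by rw [hS, Finset.union_empty]
    subst h1
    exact ⟨X, hX, ⟨(Lid k S' _).app X⟩⟩
  | insert i A hi ih =>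
    intro S' h hS
    by_cases h1 : i ∈ S ∪ A
    · refine ih S' h ?_
      rw [hS, Finset.union_insert, Finset.insert_eq_of_mem h1]
    · have h2 : S' = insert i (S ∪ A) := by rw [hS, Finset.union_insert]
      subst h2
      obtain ⟨Y, hY, ⟨e⟩⟩ := ih (S ∪ A) Finset.subset_union_left rfl
      obtain ⟨Z, hZ, ⟨e'⟩⟩ := lift_j hE (S ∪ A) J i (hJ.trans Finset.subset_union_left) hj h1
        k hk Y hY
      refine ⟨Z, hZ, ⟨?_⟩⟩
      exact ((LL k (Finset.subset_insert i (S ∪ A)) Finset.subset_union_left).app Z).symm ≪≫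
        (T.L k Finset.subset_union_left).mapIso e' ≪≫ e

end

section

variable {Γ : Type u} [Group Γ] {T : Sys Γ} {k : Type u} [Ring k] {C : Type v} [AddCommGroup C]

/-- Additive functions and forgetting. -/
theorem AddF.comp {B B' : Type u} [MulAction Γ B] [MulAction Γ B'] {P : Pre Γ B} {Q : Pre Γ B'}
    {F : KK k Q → C} (hF : AddF F) (m : Loc.Mono P Q) :
    AddF (fun Y : KK k P => F ((hk (Loc.push m)).obj Y)) := by
  intro Δ hΔ h1 h2 h3
  exact hF _ ((hk (Loc.push m)).map_distinguished _ hΔ) (per_push m h1) (per_push m h2)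
    (per_push m h3)

/-- Perfect objects over the tree `j` which vanish after forgetting are in `P^J` for `J = {j}`. -/
theorem pj_single (j : Fin T.m) {X : KK k (T.P {j})} (hX : Per X)
    (h0 : IsZero ((T.L k (Finset.empty_subset {j})).obj X)) : T.PJ {j} {j} k X := by
  refine ⟨hX, fun i hi => ?_⟩
  obtain rfl : i = j := Finset.mem_singleton.1 hi
  have h : ({i} : Finset (Fin T.m)).erase i ⊆ ∅ := by
    intro x hx
    obtain ⟨h1, h2⟩ := Finset.mem_erase.1 hx
    exact absurd (Finset.mem_singleton.1 h2) h1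
  exact ((T.L k h).map_isZero h0).of_iso
    ((LL k (Finset.empty_subset {i}) h).app X).symm

/-- Row KEY. -/
theorem key (D : T.Tr) (j : Fin T.m)
    (hE : ∀ J : Finset (Fin T.m), j ∈ J → T.EXT Finset.univ J) (hk : RegularRing k)
    {AA : Fn k (T.P Finset.univ) → Prop} (hA : RegCls0 AA)
    (hres : ∀ M, AA M → D.Tac M j → Rsl M) {F : KK k (T.P {j}) → C} (hF : AddF F)
    (hvan : ∀ R : KK k (T.P Finset.univ), Per R →
      (∀ n : ℤ, n ≠ 0 → IsZero ((hq k (T.P Finset.univ) n).obj R)) →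
      D.Tac ((hq k (T.P Finset.univ) 0).obj R) j →
      F ((T.L k (Finset.subset_univ {j})).obj R) = 0)
    (X : KK k (T.P {j})) (hX : Per X)
    (h0 : IsZero ((T.L k (Finset.empty_subset {j})).obj X)) : F X = 0 := by
  obtain ⟨Y, hY, ⟨e⟩⟩ := lift_sup hE k hk {j} {j} (Finset.Subset.refl _)
    (Finset.mem_singleton_self j) X (pj_single j hX h0) Finset.univ Finset.univ
    (Finset.subset_univ {j}) (Finset.union_eq_right.2 (Finset.subset_univ {j})).symm
  rw [← AddF.iso hF e (per_push _ hY.per)]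
  have hF' := AddF.comp hF (T.fg (Finset.subset_univ {j}))
  have hac : ∀ n, D.Tac ((hq k (T.P Finset.univ) n).obj Y) j :=
    (tacS Γ T D Finset.univ j k Y (Finset.mem_univ j) hY.per).1
      (hY.ac j (Finset.mem_singleton_self j))
  have hr : ∀ n, Rsl ((hq k (T.P Finset.univ) n).obj Y) := fun n =>
    hres _ (ER91.haa0 hA Y hY.per n) (hac n)
  refine fm_dev hF' Y hY.per hr fun n => ?_
  obtain ⟨R, hR, ⟨e'⟩, hz⟩ := hr n
  rw [fm_eq hF' hR e' hz]
  exact hvan R hR hz ((HNN.tacim Γ T D Finset.univ j k).2.1 _ _ ⟨e'.symm⟩ (hac n))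

end

end Pool.Agent.NegK.NT.EX91
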