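import Pool.Agent.Lib.MP_28303a_al.NT.EX91.Eux
import Pool.Agent.Lib.MP_28303a_al.NT.EX91.Key

/-! # Exact functors and additive functions: the vanishing -/

set_option autoImplicit false
set_option linter.unusedSectionVars false
set_option linter.unusedVariables false

namespace Pool.Agent.NegK.NT.EX91

universe u v w

open CategoryTheory Limits Pretriangulated Pool.Agent.NegK.NT.ER ZeroObject Idempotents

/-! ### Homology and exact functors -/

section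

variable {k : Type u} [Ring k] {Γ : Type u} [Group Γ] {B B' : Type u} [MulAction Γ B]
  [MulAction Γ B'] {P : Pre Γ B} {Q : Pre Γ B'}

/-- The homology of the image under an additive functor `c` of located modules, which induces the
exact functor `g`. -/
theorem hq_obj (c : Loc k P ⥤ Loc k Q) [c.Additive] (g : Fn k P ⥤ Fn k Q) [g.Additive]
    [g.PreservesHomology] (e : Loc.ev ⋙ g ≅ c ⋙ Loc.ev) (X : KK k P) (n : ℤ) :
    Nonempty ((hq k Q n).obj ((hk c).obj X) ≅ g.obj ((hq k P n).obj X)) := by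
  obtain ⟨E, rfl⟩ := HomotopyCategory.quotient_obj_surjective X
  let C : CochainComplex (Fn k P) ℤ := (Loc.ev.mapHomologicalComplex (ComplexShape.up ℤ)).obj E
  let C' : CochainComplex (Loc k Q) ℤ := (c.mapHomologicalComplex (ComplexShape.up ℤ)).obj E
  have e1 : (hq k Q n).obj (qo C') ≅
      ((Loc.ev.mapHomologicalComplex (ComplexShape.up ℤ)).obj C').homology n :=
    (hqI k Q n).app C'
  have e2 : (g.mapHomologicalComplex (ComplexShape.up ℤ)).obj C ≅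
      (Loc.ev.mapHomologicalComplex (ComplexShape.up ℤ)).obj C' :=
    HomologicalComplex.Hom.isoOfComponents (fun i => e.app (E.X i)) fun i j _ =>
      (e.hom.naturality (E.d i j)).symm
  have e3 : ((g.mapHomologicalComplex (ComplexShape.up ℤ)).obj C).homology n ≅
      g.obj (C.homology n) := (C.sc n).mapHomologyIso g
  have e4 : (hq k P n).obj (qo E) ≅ C.homology n := (hqI k P n).app E
  exact ⟨e1 ≪≫ (HomologicalComplex.homologyFunctor _ _ n).mapIso e2.symm ≪≫ e3 ≪≫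
    g.mapIso e4.symm⟩

/-- Functors which map finite objects to finite objects. -/
structure FinF (c : Loc k P ⥤ Loc k Q) : Prop where
  fin : ∀ A : Loc k P, Finite A.ι → Finite (c.obj A).ι
  emp : ∀ A : Loc k P, IsEmpty A.ι → IsEmpty (c.obj A).ι

theorem per_hk {c : Loc k P ⥤ Loc k Q} [c.Additive] (hc : FinF c) {X : KK k P} (hX : Per X) :
    Per ((hk c).obj X) := by
  obtain ⟨E, hE, ⟨r⟩⟩ := hX
  obtain ⟨a, b, hab⟩ := hE.bdd
  exact ⟨(c.mapHomologicalComplex (ComplexShape.up ℤ)).obj E,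
    ⟨fun n => hc.fin _ (hE.fin n), a, b, fun n hn => hc.emp _ (hab n hn)⟩, ⟨r.map (hk c)⟩⟩

/-- Additive functions and functors which map finite objects to finite objects. -/
theorem AddF.hk {C : Type v} [AddCommGroup C] {F : KK k Q → C} (hF : AddF F)
    {c : Loc k P ⥤ Loc k Q} [c.Additive] (hc : FinF c) :
    AddF (fun Y : KK k P => F ((NT.hk c).obj Y)) := by
  intro Δ hΔ h1 h2 h3
  exact hF _ ((NT.hk c).map_distinguished _ hΔ) (per_hk hc h1) (per_hk hc h2) (per_hk hc h3)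

/-- The objects with homology in degree zero only. -/
def Conc (X : KK k P) : Prop := ∀ n : ℤ, n ≠ 0 → IsZero ((hq k P n).obj X)

theorem Conc.hk {X : KK k P} (hX : Conc X) (c : Loc k P ⥤ Loc k Q) [c.Additive]
    (g : Fn k P ⥤ Fn k Q) [g.Additive] [g.PreservesHomology] (e : Loc.ev ⋙ g ≅ c ⋙ Loc.ev) :
    Conc ((NT.hk c).obj X) := by
  intro n hn
  obtain ⟨i⟩ := hq_obj c g e X n
  exact (g.map_isZero (hX n hn)).of_iso i

end

/-! ### Sums -/

section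

variable {k : Type u} [Ring k] {Γ : Type u} [Group Γ] {B : Type u} [MulAction Γ B] {P : Pre Γ B}

theorem per_biprod {X Y : KK k P} (hX : Per X) (hY : Per Y) : Per (X ⊞ Y) :=
  per2 (f := biprod.inl) (g := biprod.snd) (w := 0) (binaryBiproductTriangle_distinguished X Y)
    hX hY

theorem AddF.biprod {C : Type v} [AddCommGroup C] {F : KK k P → C} (hF : AddF F) {X Y : KK k P}
    (hX : Per X) (hY : Per Y) : F (X ⊞ Y) = F X + F Y :=
  hF _ (binaryBiproductTriangle_distinguished X Y) hX (per_biprod hX hY) hY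

/-- The homology of a sum. -/
theorem hq_biprod (X Y : KK k P) (n : ℤ) :
    Nonempty ((hq k P n).obj (X ⊞ Y) ≅ (hq k P n).obj X ⊞ (hq k P n).obj Y) := by
  have h1 : (hq k P n).Additive := inferInstance
  have h2 : PreservesFiniteBiproducts (hq k P n) := Functor.preservesFiniteBiproductsOfAdditive _
  have h3 := preservesBinaryBiproducts_of_preservesBiproducts (hq k P n)
  exact ⟨(hq k P n).mapBiprod X Y⟩

theorem Conc.biprod {X Y : KK k P} (hX : Conc X) (hY : Conc Y) : Conc (X ⊞ Y) := by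
  intro n hn
  obtain ⟨i⟩ := hq_biprod X Y n
  refine IsZero.of_iso ?_ i
  rw [IsZero.iff_id_eq_zero]
  exact biprod.hom_ext' _ _ ((hX n hn).eq_of_src _ _) ((hY n hn).eq_of_src _ _)

end

/-! ### The vanishing -/

section

variable {k : Type u} [Ring k] {Γ : Type u} [Group Γ] {B B' B'' : Type u} [MulAction Γ B]
  [MulAction Γ B'] [MulAction Γ B''] {P : Pre Γ B} {Q : Pre Γ B'} {Q' : Pre Γ B''}

/-- The decomposition of the resolutions. -/
theorem dec (hRr : RrStatement.{u}) {cE : Loc k P ⥤ Loc k Q} [cE.Additive] (hE : FinF cE)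
    {gE : Fn k P ⥤ Fn k Q} [gE.Additive] [gE.PreservesHomology] (eE : Loc.ev ⋙ gE ≅ cE ⋙ Loc.ev)
    {cV : Loc k P ⥤ Loc k Q'} [cV.Additive] (hV : FinF cV)
    {gV : Fn k P ⥤ Fn k Q'} [gV.Additive] [gV.PreservesHomology] (eV : Loc.ev ⋙ gV ≅ cV ⋙ Loc.ev)
    {s t : Loc.Mono Q Q'}
    {ys yt : Fn k Q ⥤ Fn k Q'} [ys.Additive] [ys.PreservesHomology] [yt.Additive]
    [yt.PreservesHomology] (es : Loc.ev ⋙ ys ≅ Loc.push s ⋙ Loc.ev)
    (et : Loc.ev ⋙ yt ≅ Loc.push t ⋙ Loc.ev) {R : KK k P} (hR : Per R) (h0 : Conc R)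
    {Ns Nt : Fn k Q} (iE : gE.obj ((hq k P 0).obj R) ≅ Ns ⊞ Nt)
    (iV : gV.obj ((hq k P 0).obj R) ≅ ys.obj Ns ⊞ yt.obj Nt) :
    ∃ Rs Rt : KK k Q, Per Rs ∧ Per Rt ∧ Nonempty ((hk cE).obj R ≅ Rs ⊞ Rt) ∧
      Nonempty ((hk cV).obj R ≅ (hk (Loc.push s)).obj Rs ⊞ (hk (Loc.push t)).obj Rt) := by
  obtain ⟨jE⟩ := hq_obj cE gE eE R 0
  obtain ⟨jV⟩ := hq_obj cV gV eV R 0
  have hN : Rsl (Ns ⊞ Nt) := ⟨(hk cE).obj R, per_hk hE hR, ⟨jE ≪≫ iE⟩, h0.hk cE gE eE⟩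
  obtain ⟨Rs, hRs, ⟨as⟩, zs⟩ := hRr k Γ B' Q Ns (Ns ⊞ Nt)
    ⟨⟨biprod.inl, biprod.fst, biprod.inl_fst⟩⟩ hN
  obtain ⟨Rt, hRt, ⟨at'⟩, zt⟩ := hRr k Γ B' Q Nt (Ns ⊞ Nt)
    ⟨⟨biprod.inr, biprod.snd, biprod.inr_snd⟩⟩ hN
  have zs : Conc Rs := zs
  have zt : Conc Rt := zt
  refine ⟨Rs, Rt, hRs, hRt, ?_, ?_⟩
  · obtain ⟨b⟩ := hq_biprod Rs Rt 0
    exact iso_of_conc 0 (per_hk hE hR) (per_biprod hRs hRt) (h0.hk cE gE eE) (zs.biprod zt)
      (jE ≪≫ iE ≪≫ (biprod.mapIso as at').symm ≪≫ b.symm)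
  · obtain ⟨b⟩ := hq_biprod ((hk (Loc.push s)).obj Rs) ((hk (Loc.push t)).obj Rt) 0
    obtain ⟨js⟩ := hq_obj (Loc.push s) ys es Rs 0
    obtain ⟨jt⟩ := hq_obj (Loc.push t) yt et Rt 0
    exact iso_of_conc 0 (per_hk hV hR) (per_biprod (H15.per_push s hRs) (H15.per_push t hRt))
      (h0.hk cV gV eV) ((zs.hk (Loc.push s) ys es).biprod (zt.hk (Loc.push t) yt et))
      (jV ≪≫ iV ≪≫ (biprod.mapIso (js ≪≫ ys.mapIso as) (jt ≪≫ yt.mapIso at')).symm ≪≫ b.symm)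

/-- VAN, in the abstract. -/
theorem van_abs {C : Type v} [AddCommGroup C] (hRr : RrStatement.{u})
    {cE : Loc k P ⥤ Loc k Q} [cE.Additive] (hE : FinF cE)
    {gE : Fn k P ⥤ Fn k Q} [gE.Additive] [gE.PreservesHomology] (eE : Loc.ev ⋙ gE ≅ cE ⋙ Loc.ev)
    {cV : Loc k P ⥤ Loc k Q'} [cV.Additive] (hV : FinF cV)
    {gV : Fn k P ⥤ Fn k Q'} [gV.Additive] [gV.PreservesHomology] (eV : Loc.ev ⋙ gV ≅ cV ⋙ Loc.ev)
    {s t : Loc.Mono Q Q'}
    {ys yt : Fn k Q ⥤ Fn k Q'} [ys.Additive] [ys.PreservesHomology] [yt.Additive]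
    [yt.PreservesHomology] (es : Loc.ev ⋙ ys ≅ Loc.push s ⋙ Loc.ev)
    (et : Loc.ev ⋙ yt ≅ Loc.push t ⋙ Loc.ev) {R : KK k P} (hR : Per R) (h0 : Conc R)
    {Ns Nt : Fn k Q} (iE : gE.obj ((hq k P 0).obj R) ≅ Ns ⊞ Nt)
    (iV : gV.obj ((hq k P 0).obj R) ≅ ys.obj Ns ⊞ yt.obj Nt)
    {φ : KK k Q' → C} (hφ : AddF φ) (hst : ∀ Y : KK k Q, Per Y →
      φ ((hk (Loc.push s)).obj Y) = φ ((hk (Loc.push t)).obj Y)) :
    φ ((hk cV).obj R) = φ ((hk (Loc.push s)).obj ((hk cE).obj R)) := by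
  obtain ⟨Rs, Rt, hRs, hRt, ⟨bE⟩, ⟨bV⟩⟩ := dec hRr hE eE hV eV es et hR h0 iE iV
  have h1 := AddF.iso hφ bV (per_hk hV hR)
  have h2 := AddF.iso (AddF.comp hφ s) bE (per_hk hE hR)
  rw [h1, AddF.biprod hφ (H15.per_push s hRs) (H15.per_push t hRt)]
  refine Eq.trans ?_ (h2.trans (AddF.biprod (AddF.comp hφ s) hRs hRt)).symm
  rw [hst Rt hRt]

end

end Pool.Agent.NegK.NT.EX91
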