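import Pool.Agent.Lib.MP_28303a_al.NT.EX.Defs
import Pool.Agent.Lib.MP_28303a_al.NT.EX91.Van
import Pool.Agent.Lib.MP_28303a_al.NT.EX91.Exa

/-! # Rows KEY and VAN -/

set_option autoImplicit false
set_option linter.unusedSectionVars false
set_option linter.unusedVariables false

namespace Pool.Agent.NegK.NT.EX91

universe u v w

open CategoryTheory Limits Pretriangulated Pool.Agent.NegK.NT.ER Pool.Agent.NegK.NT.EX
open ZeroObject Idempotents

/-- Row KEY. -/
theorem keyS (hRes : ResStatement.{u}) (hCl : ClStatement.{u}) : KeyStatement.{u} := by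
  intro Γ _ T D j _ _ K hU k _ hk G _ F hF hvan X hX h0
  have hB : ∀ J : Finset (Fin T.m), j ∈ J → T.EXT Finset.univ J :=
    ER91.base Γ T D j (H32.ret T (H47.kos T)) fun k _ hk =>
      ⟨fun M => AA (nv K) M, hCl Γ T D j K hU k hk,
        fun M hM hT => hRes Γ T D j K hU k hk M hM hT⟩
  exact key D j hB hk (hCl Γ T D j K hU k hk) (fun M hM hT => hRes Γ T D j K hU k hk M hM hT) hF
    hvan X hX h0

section

variable {Γ : Type u} [Group Γ] {T : Sys Γ} {j : Fin T.m} {k : Type u} [Ring k]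

/-- The discrete and the ordered form of the restriction. -/
noncomputable def gcL {Z : Type u} [MulAction Γ Z] (l : Z → T.B j)
    (hl : ∀ (g : Γ) (z : Z), l (g • z) = g • l z) :
    (cL l hl).F (k := k) ⋙ Loc.push (zf T j Z) ≅ (gL (Finset.mem_univ j) l hl).F :=
  Iso.refl _

theorem gc_obj {Z : Type u} [MulAction Γ Z] (l : Z → T.B j)
    (hl : ∀ (g : Γ) (z : Z), l (g • z) = g • l z) (X : KK k (T.P Finset.univ)) :
    Nonempty ((hk (Loc.push (zf T j Z))).obj ((hk (cL l hl).F).obj X) ≅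
      (hk (gL (Finset.mem_univ j) l hl).F).obj X) :=
  ⟨(H15.hkComp (gcL l hl)).app X⟩

theorem fin_le {Z : Type u} [MulAction Γ Z] {l : Z → T.B j} (hi : Function.Injective l)
    (x : T.B j) (hx : {y | y ≤ x}.Finite) : Finite {z : Z // l z ≤ x} := by
  have h1 : Finite {y : T.B j // y ≤ x} := hx.to_subtype
  exact Finite.of_injective (fun z : {z : Z // l z ≤ x} => (⟨l z.1, z.2⟩ : {y : T.B j // y ≤ x}))
    fun a b hab => Subtype.ext (hi (congrArg Subtype.val hab))

theorem finF_cL {Z : Type u} [MulAction Γ Z] {l : Z → T.B j} (hi : Function.Injective l)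
    (hl : ∀ (g : Γ) (z : Z), l (g • z) = g • l z) (hf : ∀ x : T.B j, {y | y ≤ x}.Finite) :
    FinF (cL l hl).F (k := k) where
  fin A hA := by
    have h1 : ∀ i : A.ι, Finite {z : Z // l z ≤ A.loc i j} := fun i => fin_le hi _ (hf _)
    exact inferInstanceAs (Finite (Σ i : A.ι, {z : Z // l z ≤ A.loc i j}))
  emp A hA := ⟨fun p => hA.false p.1⟩

theorem finF_gL {S : Finset (Fin T.m)} (hj : j ∈ S) {Z : Type u} [MulAction Γ Z] {l : Z → T.B j}
    (hi : Function.Injective l) (hl : ∀ (g : Γ) (z : Z), l (g • z) = g • l z)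
    (hf : ∀ x : T.B j, {y | y ≤ x}.Finite) : FinF (gL hj l hl).F (k := k) where
  fin A hA := by
    have h1 : ∀ i : A.ι, Finite {z : Z // l z ≤ A.loc i j} := fun i => fin_le hi _ (hf _)
    exact inferInstanceAs (Finite (Σ i : A.ι, {z : Z // l z ≤ A.loc i j}))
  emp A hA := ⟨fun p => hA.false p.1⟩

end

/-- Row VAN. -/
theorem vanf (hEvc : EvcStatement.{u}) (hNat : NatStatement.{u}) (hSpt : SptStatement.{u})
    (hYs : YsStatement.{u}) (hRr : RrStatement.{u}) : VanfStatement.{u} := by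
  intro Γ _ T D j _ _ K sd hsd k _ G _ eu heu hst R hR h0 hT
  obtain ⟨Ns, Nt, ⟨iE⟩, ⟨iV⟩⟩ := hSpt Γ T D j K sd hsd k _ hT
  obtain ⟨eE⟩ := hEvc k Γ T j (D.E j) (D.ed j) K.ed_smul
  obtain ⟨eV⟩ := hEvc k Γ T j (D.V j) (D.vt j) K.vt_smul
  obtain ⟨es⟩ := hNat k Γ _ _ _ _ (zq (T := T) (j := j) (D.s j) K.s_smul)
  obtain ⟨et⟩ := hNat k Γ _ _ _ _ (zq (T := T) (j := j) (D.t j) K.t_smul)
  have hs := yy_hom (k := k) hYs (zq (T := T) (j := j) (D.s j) K.s_smul)
  have ht := yy_hom (k := k) hYs (zq (T := T) (j := j) (D.t j) K.t_smul)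
  have hE : FinF (cL (D.ed j) K.ed_smul).F (k := k) := finF_cL K.ed_inj K.ed_smul (K.fin j)
  have hV : FinF (cL (D.vt j) K.vt_smul).F (k := k) := finF_cL K.vt_inj K.vt_smul (K.fin j)
  have hφ := AddF.comp heu (zf T j (D.V j))
  have sq : ∀ (w : D.E j → D.V j) (hw : ∀ (g : Γ) (z : D.E j), w (g • z) = g • w z)
      (Y : KK k (zP T j (D.E j))), Per Y →
      eu ((hk (Loc.push (zf T j (D.V j)))).obj ((hk (Loc.push (zq w hw).toMono)).obj Y)) =
        eu ((hk (Loc.push (wm w hw))).obj ((hk (Loc.push (zf T j (D.E j)))).obj Y)) := by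
    intro w hw Y hY
    have e : (hk (Loc.push (zf T j (D.V j)))).obj ((hk (Loc.push (zq w hw).toMono)).obj Y) ≅
        (hk (Loc.push (wm w hw))).obj ((hk (Loc.push (zf T j (D.E j)))).obj Y) :=
      (H15.hkSq (F := Loc.push (k := k) (zq (T := T) (j := j) w hw).toMono)
        (G := Loc.push (zf T j (D.V j))) (F' := Loc.push (zf T j (D.E j)))
        (G' := Loc.push (wm w hw)) (Iso.refl _)).app Y
    exact AddF.iso heu e (H15.per_push _ (H15.per_push _ hY))
  have h1 := van_abs hRr hE eE hV eV es et hR h0 iE iV hφ (by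
    intro Y hY
    show eu _ = eu _
    rw [sq _ _ Y hY, sq _ _ Y hY]
    exact hst _ (H15.per_push _ hY))
  have h1 : eu ((hk (Loc.push (zf T j (D.V j)))).obj
      ((hk (cL (D.vt j) K.vt_smul).F).obj R)) =
      eu ((hk (Loc.push (zf T j (D.V j)))).obj ((hk (Loc.push (zq (D.s j) K.s_smul).toMono)).obj
        ((hk (cL (D.ed j) K.ed_smul).F).obj R))) := h1
  rw [sq _ _ _ (per_hk hE hR)] at h1
  obtain ⟨aV⟩ := gc_obj (k := k) (D.vt j) K.vt_smul R
  obtain ⟨aE⟩ := gc_obj (k := k) (D.ed j) K.ed_smul R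
  have h2 := AddF.iso heu aV (H15.per_push _ (per_hk hV hR))
  have h3 := AddF.iso (AddF.comp heu (wm (D.s j) K.s_smul)) aE (H15.per_push _ (per_hk hE hR))
  show eu _ - eu _ = 0
  rw [← h2, h1, sub_eq_zero]
  exact h3

end Pool.Agent.NegK.NT.EX91
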