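import Pool.Agent.Lib.MP_28303a_al.NT.EX91.Frs

/-! # Roofs: maps after forgetting the locations -/

set_option autoImplicit false
set_option linter.unusedSectionVars false
set_option linter.unusedVariables false

namespace Pool.Agent.NegK.NT.EX91

universe u v

open CategoryTheory Limits Pretriangulated Pool.Agent.NegK.NT.ER ZeroObject

section

variable {Γ : Type u} [Group Γ] (T : Sys Γ) (j : Fin T.m) (k : Type u) [Ring k]

/-- Forgetting the locations in the direction `j`. -/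
noncomputable abbrev L0 : KK k (T.P {j}) ⥤ KK k (T.P ∅) := T.L k (Finset.empty_subset {j})

/-- Forgetting the locations, for complexes. -/
noncomputable abbrev M0 : CochainComplex (Loc k (T.P {j})) ℤ ⥤ CochainComplex (Loc k (T.P ∅)) ℤ :=
  (Loc.push (T.fg (Finset.empty_subset {j}))).mapHomologicalComplex (ComplexShape.up ℤ)

variable {T j k}

/-- The labelled complex without locations. -/
noncomputable def lab0 (E : CochainComplex (Loc k (T.P ∅)) ℤ) (hE : FinC E) (a : ℤ)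
    (ha : ∀ n, n < a → IsEmpty (E.X n).ι) : T.Lab ∅ ∅ k where
  E := E
  fin := hE
  β := ULift.{u} (Σ n : ℤ, (E.X n).ι)
  π n x := ⟨⟨n, x⟩⟩
  gr z := (z.down.1 - a).toNat
  dgr n n' x y g h := by
    left
    have h1 : n + 1 = n' := by
      by_contra hc
      refine h ?_
      have h2 : E.d n n' = 0 := E.shape n n' hc
      rw [ent, h2]
      rfl
    have h2 : a ≤ n := by
      by_contra hc
      exact (ha n (not_le.1 hc)).false x
    show (n - a).toNat < (n' - a).toNat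
    omega
  c _ _ _ := 0
  cd j hj := absurd hj (Finset.notMem_empty j)
  csp j hj := absurd hj (Finset.notMem_empty j)

/-- Roofs for finite complexes. -/
theorem rof_fin {E E' : CochainComplex (Loc k (T.P {j})) ℤ} (hE : FinC E) (hE' : FinC E')
    (f : (L0 T j k).obj (qo E) ⟶ (L0 T j k).obj (qo E')) :
    ∃ (E'' : CochainComplex (Loc k (T.P {j})) ℤ) (_ : FinC E'') (g : qo E ⟶ qo E'')
      (t : qo E' ⟶ qo E''), IsIso ((L0 T j k).map t) ∧
        (L0 T j k).map g = f ≫ (L0 T j k).map t := by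
  let Q := HomotopyCategory.quotient (Loc k (T.P ∅)) (ComplexShape.up ℤ)
  let Q' := HomotopyCategory.quotient (Loc k (T.P {j})) (ComplexShape.up ℤ)
  obtain ⟨p, hp⟩ : ∃ p : (M0 T j k).obj E ⟶ (M0 T j k).obj E', Q.map p = f :=
    Q.map_surjective f
  obtain ⟨a, b, hab⟩ := hE'.bdd
  have hME : FinC ((M0 T j k).obj E) := ⟨fun n => hE.fin n, hE.bdd⟩
  have hME' : FinC ((M0 T j k).obj E') := ⟨fun n => hE'.fin n, hE'.bdd⟩
  let Λ : T.Lab ∅ ∅ k := lab0 ((M0 T j k).obj E') hME' a fun n hn => hab n (Or.inl hn)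
  have hfs := H27.fin_sigma hE'
  obtain ⟨l, hl, hC⟩ := lam T ∅ ∅ k Λ j
    (Set.range (fun z : Σ n : ℤ, (E'.X n).ι => ((E'.X z.1).loc z.2 j, (1 : Γ), Λ.π z.1 z.2)) ∪
      {c | ∃ (n : ℤ) (x : (E.X n).ι) (y : (E'.X n).ι) (g : Γ),
        ent (Loc.lin (p.f n)) x y g ≠ 0 ∧ c = ((E.X n).loc x j, g, Λ.π n y)})
    ((Set.finite_range _).union
      (H27.fin_ent hME hME' p fun n x g y => ((E.X n).loc x j, g, Λ.π n y)))
  have hC1 : ∀ n x, (E'.X n).loc x j ≤ l (Λ.π n x) := by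
    intro n x
    have := hC _ (Or.inl ⟨⟨n, x⟩, rfl⟩)
    rwa [one_smul] at this
  have hC2 : ∀ (n : ℤ) (x : (E.X n).ι) (y : (E'.X n).ι) (g : Γ),
      ent (Loc.lin (p.f n)) x y g ≠ 0 → (E.X n).loc x j ≤ g • l (Λ.π n y) := by
    intro n x y g hg
    exact hC _ (Or.inr ⟨n, x, y, g, hg, rfl⟩)
  have hS : ({j} : Finset (Fin T.m)) ⊆ insert j ∅ := by simp
  set C := Λ.rl j l hl {j} hS with hCd
  let id' : ∀ n, ((E'.X n).ι →₀ MonoidAlgebra k Γ) →ₗ[MonoidAlgebra k Γ]
    ((E'.X n).ι →₀ MonoidAlgebra k Γ) := fun n => LinearMap.id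
  let t₀ : E' ⟶ C := H27.chm (E := E') (E' := C) (fun n => id' n)
    (fun n => H27.spt_loc _ _ (by
      intro x a ha
      obtain rfl := Finset.mem_singleton.1 ha
      show (E'.X n).loc x a ≤ Function.update ((E'.X n).loc x) a (l (Λ.π n x)) a
      rw [Function.update_self]
      exact hC1 n x))
    (fun n n' => rfl)
  let g₀ : E ⟶ C := H27.chm (E := E) (E' := C)
    (fun n => Loc.lin (A := ((M0 T j k).obj E).X n) (A' := ((M0 T j k).obj E').X n) (p.f n))
    (fun n => by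
      intro x y g hg a ha
      obtain rfl := Finset.mem_singleton.1 ha
      show (E.X n).loc x a ≤ g • Function.update ((E'.X n).loc y) a (l (Λ.π n y)) a
      rw [Function.update_self]
      exact hC2 n x y g hg)
    (fun n n' => congrArg Loc.lin (p.comm n n'))
  have htr : ∀ x y : T.Box, (T.P ∅).le x y := fun x y i hi => absurd hi (Finset.notMem_empty i)
  let w : (M0 T j k).obj C ⟶ (M0 T j k).obj E' :=
    H27.chm (E := (M0 T j k).obj C) (E' := (M0 T j k).obj E') (fun n => id' n)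
      (fun n => H27.spt_loc _ _ fun x => htr _ _) (fun n n' => rfl)
  have htw : (M0 T j k).map t₀ ≫ w = 𝟙 _ :=
    HomologicalComplex.hom_ext _ _ fun n => Loc.hom_ext rfl
  have hwt : w ≫ (M0 T j k).map t₀ = 𝟙 _ :=
    HomologicalComplex.hom_ext _ _ fun n => Loc.hom_ext rfl
  have hpt : (M0 T j k).map g₀ = p ≫ (M0 T j k).map t₀ :=
    HomologicalComplex.hom_ext _ _ fun n => Loc.hom_ext rfl
  have hQt : (L0 T j k).map (Q'.map t₀) = Q.map ((M0 T j k).map t₀) := rfl
  have hQg : (L0 T j k).map (Q'.map g₀) = Q.map ((M0 T j k).map g₀) := rfl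
  refine ⟨C, ⟨fun n => hE'.fin n, hE'.bdd⟩, Q'.map g₀, Q'.map t₀, ?_, ?_⟩
  · have h1 : Q.map ((M0 T j k).map t₀) ≫ Q.map w = 𝟙 (Q.obj ((M0 T j k).obj E')) := by
      rw [← Functor.map_comp, htw, CategoryTheory.Functor.map_id]
    have h2 : Q.map w ≫ Q.map ((M0 T j k).map t₀) = 𝟙 (Q.obj ((M0 T j k).obj C)) := by
      rw [← Functor.map_comp, hwt, CategoryTheory.Functor.map_id]
    exact ⟨Q.map w, h1, h2⟩
  · have h1 : Q.map ((M0 T j k).map g₀) = Q.map p ≫ Q.map ((M0 T j k).map t₀) := by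
      rw [hpt, Functor.map_comp]
    rw [hp] at h1
    exact h1

/-- ROF. -/
theorem rof {X X' : KK k (T.P {j})} (hX : Per X) (hX' : Per X')
    (f : (L0 T j k).obj X ⟶ (L0 T j k).obj X') :
    ∃ (Z : KK k (T.P {j})) (_ : Per Z) (g : X ⟶ Z) (t : X' ⟶ Z),
      IsIso ((L0 T j k).map t) ∧ (L0 T j k).map g = f ≫ (L0 T j k).map t := by
  obtain ⟨E, hE, ⟨R⟩⟩ := hX
  obtain ⟨E', hE', ⟨R'⟩⟩ := hX'
  obtain ⟨E'', hE'', g, t, ht, hg⟩ := rof_fin hE hE'
    ((L0 T j k).map R.r ≫ f ≫ (L0 T j k).map R'.i)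
  obtain ⟨W, w1, w2, hT⟩ := distinguished_cocone_triangle t
  obtain ⟨Z, tZ, z2, hZ⟩ := distinguished_cocone_triangle₂ (w2 ≫ R'.r⟦(1 : ℤ)⟧')
  obtain ⟨b, hb, -⟩ := complete_distinguished_triangle_morphism₂ _ _ hT hZ R'.r (𝟙 W) (by
    change w2 ≫ R'.r⟦(1 : ℤ)⟧' = 𝟙 W ≫ w2 ≫ R'.r⟦(1 : ℤ)⟧'
    rw [Category.id_comp])
  have hb' : t ≫ b = R'.r ≫ tZ := hb
  have hpX' : Per X' := ⟨E', hE', ⟨R'⟩⟩
  have hpW : Per W := per3 hT (per_qo hE') (per_qo hE'')
  have hpZ : Per Z := per2 hZ hpX' hpW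
  have hLW : IsZero ((L0 T j k).obj W) :=
    (Triangle.isZero₃_iff_isIso₁ _ ((L0 T j k).map_distinguished _ hT)).2 ht
  have hLt : IsIso ((L0 T j k).map tZ) :=
    (Triangle.isZero₃_iff_isIso₁ _ ((L0 T j k).map_distinguished _ hZ)).1 hLW
  refine ⟨Z, hpZ, R.i ≫ g ≫ b, tZ, hLt, ?_⟩
  have h1 : (L0 T j k).map R.i ≫ (L0 T j k).map R.r = 𝟙 _ :=
    ((L0 T j k).map_comp _ _).symm.trans ((congrArg (L0 T j k).map R.retract).trans
      ((L0 T j k).map_id _))
  have h2 : (L0 T j k).map t ≫ (L0 T j k).map b =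
      (L0 T j k).map R'.r ≫ (L0 T j k).map tZ :=
    ((L0 T j k).map_comp _ _).symm.trans ((congrArg (L0 T j k).map hb').trans
      ((L0 T j k).map_comp _ _))
  have h3 : (L0 T j k).map R'.i ≫ (L0 T j k).map R'.r = 𝟙 _ :=
    ((L0 T j k).map_comp _ _).symm.trans ((congrArg (L0 T j k).map R'.retract).trans
      ((L0 T j k).map_id _))
  have h4 : (L0 T j k).map (R.i ≫ g ≫ b) =
      (L0 T j k).map R.i ≫ (L0 T j k).map g ≫ (L0 T j k).map b :=
    ((L0 T j k).map_comp _ _).trans (congrArg (fun w => (L0 T j k).map R.i ≫ w)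
      ((L0 T j k).map_comp _ _))
  have h5 : (L0 T j k).map g ≫ (L0 T j k).map b =
      (L0 T j k).map R.r ≫ f ≫ (L0 T j k).map tZ := by
    refine (congrArg (fun w => w ≫ (L0 T j k).map b) hg).trans ?_
    refine (Category.assoc _ _ _).trans ?_
    refine (congrArg (fun w => ((L0 T j k).map R.r ≫ f ≫ (L0 T j k).map R'.i) ≫ w) h2).trans ?_
    refine (Category.assoc _ _ _).trans (congrArg (fun w => (L0 T j k).map R.r ≫ w) ?_)
    refine (Category.assoc _ _ _).trans (congrArg (fun w => f ≫ w) ?_)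
    refine (Category.assoc _ _ _).symm.trans ?_
    refine (congrArg (fun w => w ≫ (L0 T j k).map tZ) h3).trans (Category.id_comp _)
  refine h4.trans ((congrArg (fun w => (L0 T j k).map R.i ≫ w) h5).trans ?_)
  refine (Category.assoc _ _ _).symm.trans ?_
  exact (congrArg (fun w => w ≫ f ≫ (L0 T j k).map tZ) h1).trans (Category.id_comp _)

/-- An additive function which vanishes on the objects which become zero after forgetting the
locations depends only on the object without locations. -/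
theorem rof_eq {C : Type v} [AddCommGroup C] {F : KK k (T.P {j}) → C} (hF : AddF F)
    (h0 : ∀ X : KK k (T.P {j}), Per X → IsZero ((L0 T j k).obj X) → F X = 0)
    {X X' : KK k (T.P {j})} (hX : Per X) (hX' : Per X')
    (e : (L0 T j k).obj X ≅ (L0 T j k).obj X') : F X = F X' := by
  obtain ⟨Z, hZ, g, t, ht, hg⟩ := rof hX hX' e.hom
  have key : ∀ (Y : KK k (T.P {j})) (s : Y ⟶ Z), Per Y → IsIso ((L0 T j k).map s) →
      F Y = F Z := by
    intro Y s hY hs
    obtain ⟨W, w1, w2, hT⟩ := distinguished_cocone_triangle s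
    have hpW : Per W := per3 hT hY hZ
    have hLW : IsZero ((L0 T j k).obj W) :=
      (Triangle.isZero₃_iff_isIso₁ _ ((L0 T j k).map_distinguished _ hT)).2 hs
    have h1 : F Z = F Y + F W := hF _ hT hY hZ hpW
    rw [h1, h0 W hpW hLW, add_zero]
  have hgi : IsIso ((L0 T j k).map g) := by
    rw [hg]
    infer_instance
  rw [key X g hX hgi, key X' t hX' ht]

end

end Pool.Agent.NegK.NT.EX91
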